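import Pool.Agent.X302.TR.Stm

/-! Part CHAIN: the choice of the directions. -/

set_option autoImplicit false

namespace Pool.Agent.X61.TR

open Pool.Agent.X302.TR

variable {n : ℕ}

theorem dot_comb (q : Fin n → ℤ) (R : ℝ) (u v : V n) :
    dot q (R • u + v) = R * dot q u + dot q v := by
  unfold dot
  rw [Finset.mul_sum, ← Finset.sum_add_distrib]
  refine Finset.sum_congr rfl fun j _ => ?_
  rw [Pi.add_apply, Pi.smul_apply, smul_eq_mul]
  ring

theorem eq_zero_of_dot {v : V n} (h : ∀ q : Fin n → ℤ, dot q v = 0) : v = 0 := by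
  classical
  ext j
  have h1 := h (Pi.single j 1)
  unfold dot at h1
  rw [Finset.sum_eq_single j] at h1
  · simpa using h1
  · intro b _ hb
    rw [Pi.single_eq_of_ne hb]
    simp
  · intro hj
    exact absurd (Finset.mem_univ j) hj

theorem choice {p : ℕ} (a : Fin p → Fin n → ℤ) (u v : V n) : ∃ R : ℝ, 0 < R ∧
    (∀ i, dot (a i) u < 0 → R * dot (a i) u + dot (a i) v < 0) ∧
    ∀ q : Fin n → ℤ, R * dot q u + dot q v = 0 → dot q u = 0 := by
  classical
  have hS : (Set.range fun q : Fin n → ℤ => -dot q v / dot q u).Countable :=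
    Set.countable_range _
  have hd : Dense (Set.range fun q : Fin n → ℤ => -dot q v / dot q u)ᶜ := hS.dense_compl ℝ
  obtain ⟨R, hR, hRS⟩ := hd.inter_open_nonempty
    (Set.Ioi (∑ i, |dot (a i) v| / |dot (a i) u| + 1)) isOpen_Ioi ⟨_, Set.mem_Ioi.2 (lt_add_one _)⟩
  rw [Set.mem_Ioi] at hR
  have h0 : 0 ≤ ∑ i, |dot (a i) v| / |dot (a i) u| :=
    Finset.sum_nonneg fun i _ => div_nonneg (abs_nonneg _) (abs_nonneg _)
  refine ⟨R, by linarith, fun i hi => ?_, fun q hq => ?_⟩
  · have h1 : |dot (a i) v| / |dot (a i) u| ≤ ∑ i, |dot (a i) v| / |dot (a i) u| :=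
      Finset.single_le_sum (f := fun i => |dot (a i) v| / |dot (a i) u|)
        (fun i _ => div_nonneg (abs_nonneg _) (abs_nonneg _)) (Finset.mem_univ i)
    have h2 : |dot (a i) v| / |dot (a i) u| < R := by linarith
    have h3 : 0 < |dot (a i) u| := abs_pos.2 hi.ne
    rw [div_lt_iff₀ h3, abs_of_neg hi] at h2
    have h4 := le_abs_self (dot (a i) v)
    linarith
  · by_contra hne
    apply hRS
    refine ⟨q, ?_⟩
    show -dot q v / dot q u = R
    rw [div_eq_iff hne]
    linarith

theorem t_CHAIN : S_CHAIN := by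
  intro n p a m d hm hd hs
  choose f hf0 hfa hfb using choice (n := n) a
  obtain ⟨e, he⟩ : ∃ e : ℕ → V n, e = fun j =>
    Nat.rec (d 0) (fun j ej => f ej (d (j + 1)) • ej + d (j + 1)) j := ⟨_, rfl⟩
  have e0 : e 0 = d 0 := by
    rw [he]
    rfl
  have es : ∀ j, e (j + 1) = f (e j) (d (j + 1)) • e j + d (j + 1) := by
    intro j
    rw [he]
  have hq : ∀ j, ∀ q : Fin n → ℤ, dot q (e (j + 1)) = 0 → dot q (e j) = 0 := by
    intro j q h
    rw [es, dot_comb] at h
    exact hfb _ _ q h
  have hne : ∀ j, e j ≠ 0 := by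
    intro j
    induction j with
    | zero => rw [e0]; exact hd
    | succ j ih =>
      intro h
      apply ih
      refine eq_zero_of_dot fun q => hq j q ?_
      rw [h]
      unfold dot
      simp
  have hinv : ∀ j < m, ∀ i, dot (a i) (e j) ≤ 0 ∧
      (dot (a i) (e j) = 0 → ∀ j' ≤ j, dot (a i) (d j') = 0) := by
    intro j
    induction j with
    | zero =>
      intro _ i
      rw [e0]
      refine ⟨hs i 0 hm fun j' hj' => absurd hj' (Nat.not_lt_zero _), fun h j' hj' => ?_⟩
      rw [Nat.le_zero.1 hj']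
      exact h
    | succ j ih =>
      intro hj i
      obtain ⟨k1, k2⟩ := ih (by omega) i
      rw [es, dot_comb]
      rcases k1.lt_or_eq with h | h
      · have h3 := hfa (e j) (d (j + 1)) i h
        exact ⟨h3.le, fun h4 => absurd h4 h3.ne⟩
      · have h3 := k2 h
        have h4 := hs i (j + 1) hj fun j' hj' => h3 j' (Nat.lt_succ_iff.1 hj')
        rw [h, mul_zero, zero_add]
        refine ⟨h4, fun h5 j' hj' => ?_⟩
        rcases Nat.le_succ_iff.1 hj' with h6 | h6
        · exact h3 j' h6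
        · rw [h6]
          exact h5
  exact ⟨e, fun j => f (e j) (d (j + 1)), e0, fun j => hf0 _ _, fun j _ => es j,
    fun j hj => ⟨hne j, fun i => (hinv j hj i).1⟩, fun j _ i => hq j (a i), fun j _ q => hq j q⟩

end Pool.Agent.X61.TR
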